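import Pool.Agent.CliqueSharp.Final

set_option autoImplicit false

open Finset
open Pool.Agent.CliqueCount (clq mem_clq vals nIn nIn_le nIn_step nIn_univ cmn mem_cmn
  card_clq_cover attain_single attain_graph)
open Pool.Agent.CliqueSharp.Final (S above mem_S_iff S_finite vals_finite)

namespace Pool.Agent.Helper52.CT

/-! ### the elements of `S n` which are at least `2 ^ (n - 1)` -/

section top

variable {n : ℕ}

/-- one vertex covers all the missing edges -/
lemma one_cover (G : SimpleGraph (Fin n)) (v : Fin n)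
    (hv : ∀ x, x ≠ v → ∀ y, y ≠ v → x ≠ y → G.Adj x y) :
    ∃ j < n, (clq G).card = 2 ^ (n - 1) + 2 ^ j := by
  classical
  have h1 := card_clq_cover G {v} (fun x hx y hy hxy => hv x (by simpa using hx) y
    (by simpa using hy) hxy)
  have h2 : (clq G).filter (fun s => s ⊆ {v}) = {∅, {v}} := by
    ext s
    rw [mem_filter, mem_clq, Finset.subset_singleton_iff, mem_insert, mem_singleton]
    constructor
    · exact fun h => h.2
    · intro h
      refine ⟨?_, h⟩
      rcases h with rfl | rfl <;> simp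
  rw [h2, Finset.sum_pair (by simp)] at h1
  have h3 : (cmn G {v} ∅).card = n - 1 := by
    have : cmn G {v} ∅ = univ.erase v := by
      ext x
      rw [mem_cmn]
      simp
    rw [this, card_erase_of_mem (mem_univ v)]
    simp
  have h4 : (cmn G {v} {v}).card < n := by
    have : cmn G {v} {v} ⊆ univ.erase v := by
      intro x hx
      rw [mem_cmn] at hx
      simpa using hx.1
    have h5 := card_le_card this
    rw [card_erase_of_mem (mem_univ v)] at h5
    have h6 : 0 < n := lt_of_le_of_lt (Nat.zero_le _) v.2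
    simp only [card_univ, Fintype.card_fin] at h5
    omega
  exact ⟨_, h4, by rw [h1, h3]⟩

/-- the cliques through `v` -/
lemma through_le (G : SimpleGraph (Fin n)) {v x y : Fin n} (hvx : v ≠ x) (hvy : v ≠ y)
    (hxy : x ≠ y) (h1 : ¬ G.Adj v x) (h2 : ¬ G.Adj v y) :
    ((clq G).filter fun s => v ∈ s).card ≤ 2 ^ (n - 3) := by
  classical
  have hc : (((univ.erase v).erase x).erase y : Finset (Fin n)).card = n - 3 := by
    rw [card_erase_of_mem, card_erase_of_mem, card_erase_of_mem (mem_univ _)]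
    · simp only [card_univ, Fintype.card_fin]
      omega
    · simp [hvx.symm]
    · simp [hvy.symm, hxy.symm]
  rw [← hc, ← card_powerset]
  apply Finset.card_le_card_of_injOn (fun s => s.erase v)
  · intro s hs
    rw [mem_coe, mem_filter, mem_clq] at hs
    rw [mem_coe, mem_powerset]
    intro a ha
    rw [mem_erase] at ha
    rw [mem_erase, mem_erase, mem_erase]
    refine ⟨?_, ?_, ha.1, mem_univ a⟩
    · rintro rfl
      exact h2 (hs.1 (mem_coe.2 hs.2) (mem_coe.2 ha.2) hvy)
    · rintro rfl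
      exact h1 (hs.1 (mem_coe.2 hs.2) (mem_coe.2 ha.2) hvx)
  · intro s hs s' hs' h
    rw [mem_coe, mem_filter] at hs hs'
    have h3 : insert v (s.erase v) = insert v (s'.erase v) := by
      simp only at h
      rw [h]
    rwa [insert_erase hs.2, insert_erase hs'.2] at h3

lemma card_split (G : SimpleGraph (Fin n)) (v : Fin n) :
    (clq G).card = nIn G (univ.erase v) + ((clq G).filter fun s => v ∈ s).card := by
  classical
  rw [← Finset.card_filter_add_card_filter_not (s := clq G) (fun s => v ∉ s)]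
  congr 1
  · unfold nIn
    congr 1
    ext s
    rw [mem_filter, mem_filter]
    refine and_congr Iff.rfl ?_
    constructor
    · intro h x hx
      rw [mem_erase]
      exact ⟨fun e => h (e ▸ hx), mem_univ x⟩
    · intro h hv
      exact (mem_erase.1 (h hv)).1 rfl
  · congr 1
    ext s
    simp

lemma nIn_pair (G : SimpleGraph (Fin n)) (U : Finset (Fin n)) {u w : Fin n} (huw : u ≠ w)
    (hu : u ∈ U) (hw : w ∈ U) (hadj : ¬ G.Adj u w) :
    ((U.erase u).erase w).card + 2 = U.card ∧ nIn G U ≤ 3 * nIn G ((U.erase u).erase w) := by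
  refine ⟨?_, nIn_step G U huw hadj⟩
  rw [card_erase_of_mem (mem_erase.2 ⟨huw.symm, hw⟩), card_erase_of_mem hu]
  have h2 : 1 < U.card := Finset.one_lt_card.2 ⟨u, hu, w, hw, huw⟩
  omega

/-- if the missing edges are not covered by one vertex, then every vertex has at most one
non-neighbour -/
lemma unique_non (G : SimpleGraph (Fin n)) (hbig : 2 ^ (n - 1) < (clq G).card)
    (hno : ∀ v, ∃ x, x ≠ v ∧ ∃ y, y ≠ v ∧ x ≠ y ∧ ¬ G.Adj x y) {v x y : Fin n} (hvx : v ≠ x)
    (hvy : v ≠ y) (h1 : ¬ G.Adj v x) (h2 : ¬ G.Adj v y) : x = y := by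
  classical
  by_contra hxy
  obtain ⟨p, hp, q, hq, hpq, hpq2⟩ := hno v
  have h3 := through_le G hvx hvy hxy h1 h2
  obtain ⟨h4, h5⟩ := nIn_pair G (univ.erase v) hpq (mem_erase.2 ⟨hp, mem_univ p⟩)
    (mem_erase.2 ⟨hq, mem_univ q⟩) hpq2
  have h6 := nIn_le G (((univ.erase v).erase p).erase q)
  have h7 := card_split G v
  rw [card_erase_of_mem (mem_univ v)] at h4
  simp only [card_univ, Fintype.card_fin] at h4
  have h8 : (((univ.erase v).erase p).erase q : Finset (Fin n)).card = n - 3 := by omega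
  rw [h8] at h6
  have h9 : 2 ^ (n - 1) = 4 * 2 ^ (n - 3) := by
    have : n - 1 = n - 3 + 2 := by omega
    rw [this, pow_add]
    ring
  omega

/-- two missing edges only -/
lemma two_edges (G : SimpleGraph (Fin n)) {u w x y : Fin n} (huw : u ≠ w) (hxy : x ≠ y)
    (hux : u ≠ x) (huy : u ≠ y) (hwx : w ≠ x) (hwy : w ≠ y) (h1 : ¬ G.Adj u w)
    (h2 : ¬ G.Adj x y)
    (hall : ∀ p q, p ≠ q → ¬ G.Adj p q →
      (p = u ∧ q = w) ∨ (p = w ∧ q = u) ∨ (p = x ∧ q = y) ∨ (p = y ∧ q = x)) :
    (clq G).card = 2 ^ (n - 1) + 2 ^ (n - 4) ∧ 4 ≤ n := by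
  classical
  have hadj : ∀ p q, p ≠ q → ¬ ((p = u ∧ q = w) ∨ (p = w ∧ q = u) ∨ (p = x ∧ q = y) ∨
      (p = y ∧ q = x)) → G.Adj p q := by
    intro p q hpq h
    by_contra hcon
    exact h (hall p q hpq hcon)
  have h0 := card_clq_cover G {u, x} (fun p hp q hq hpq => hadj p q hpq (by
    simp only [mem_insert, mem_singleton, not_or] at hp hq
    rintro (⟨e1, e2⟩ | ⟨e1, e2⟩ | ⟨e1, e2⟩ | ⟨e1, e2⟩)
    · exact hp.1 e1
    · exact hq.1 e2
    · exact hp.2 e1
    · exact hq.2 e2))
  have hux2 : G.Adj u x := hadj u x hux (by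
    rintro (⟨e1, e2⟩ | ⟨e1, e2⟩ | ⟨e1, e2⟩ | ⟨e1, e2⟩)
    · exact hwx e2.symm
    · exact huw e1
    · exact hux e1
    · exact huy e1)
  have hf : (clq G).filter (fun s => s ⊆ {u, x}) = {∅, {u}, {x}, {u, x}} := by
    ext s
    rw [mem_filter, mem_clq]
    simp only [mem_insert, mem_singleton]
    constructor
    · rintro ⟨_, h⟩
      have h' : ∀ z ∈ s, z = u ∨ z = x := fun z hz => by simpa using h hz
      by_cases hu : u ∈ s <;> by_cases hx : x ∈ s
      · right; right; right
        ext z
        simp only [mem_insert, mem_singleton]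
        constructor
        · exact h' z
        · rintro (rfl | rfl)
          · exact hu
          · exact hx
      · right; left
        ext z
        simp only [mem_singleton]
        constructor
        · intro hz
          rcases h' z hz with e | e
          · exact e
          · exact absurd (e ▸ hz) hx
        · rintro rfl
          exact hu
      · right; right; left
        ext z
        simp only [mem_singleton]
        constructor
        · intro hz
          rcases h' z hz with e | e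
          · exact absurd (e ▸ hz) hu
          · exact e
        · rintro rfl
          exact hx
      · left
        rw [Finset.eq_empty_iff_forall_notMem]
        intro z hz
        rcases h' z hz with e | e
        · exact hu (e ▸ hz)
        · exact hx (e ▸ hz)
    · rintro (rfl | rfl | rfl | rfl)
      · simp
      · simp
      · simp
      · refine ⟨?_, Finset.Subset.refl _⟩
        simpa using fun _ => hux2
  have c4 : ({u, w, x, y} : Finset (Fin n)).card = 4 := by
    rw [card_insert_of_notMem, card_insert_of_notMem, card_insert_of_notMem, card_singleton]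
    · simpa using hxy
    · simp [hwx, hwy]
    · simp [huw, hux, huy]
  have hn : 4 ≤ n := by
    rw [← c4]
    exact (card_le_univ _).trans (by simp)
  have cc : ∀ (T : Finset (Fin n)) (m : ℕ) (A : Finset (Fin n)), A.card = m →
      (∀ z, z ∈ cmn G {u, x} T ↔ z ∉ A) → (cmn G {u, x} T).card = n - m := by
    intro T m A hA h
    have : cmn G {u, x} T = Aᶜ := by
      ext z
      rw [h z, mem_compl]
    rw [this, card_compl, hA]
    simp
  have e0 : (cmn G {u, x} ∅).card = n - 2 := cc ∅ 2 {u, x} (by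
    rw [card_insert_of_notMem (by simpa using hux), card_singleton]) (by
      intro z
      rw [mem_cmn]
      simp)
  have adju : ∀ z, z ≠ u → z ≠ w → G.Adj u z := fun z hz1 hz2 => hadj u z (Ne.symm hz1) (by
    rintro (⟨e1, e2⟩ | ⟨e1, e2⟩ | ⟨e1, e2⟩ | ⟨e1, e2⟩)
    · exact hz2 e2
    · exact huw e1
    · exact hux e1
    · exact huy e1)
  have adjx : ∀ z, z ≠ x → z ≠ y → G.Adj x z := fun z hz1 hz2 => hadj x z (Ne.symm hz1) (by
    rintro (⟨e1, e2⟩ | ⟨e1, e2⟩ | ⟨e1, e2⟩ | ⟨e1, e2⟩)
    · exact hux e1.symm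
    · exact hwx e1.symm
    · exact hz2 e2
    · exact hxy e1)
  have e1 : (cmn G {u, x} {u}).card = n - 3 := cc {u} 3 {u, w, x} (by
    rw [card_insert_of_notMem, card_insert_of_notMem, card_singleton]
    · simpa using hwx
    · simp [huw, hux]) (by
      intro z
      rw [mem_cmn]
      simp only [mem_insert, mem_singleton, not_or, forall_eq]
      constructor
      · rintro ⟨⟨a1, a2⟩, a3⟩
        exact ⟨a1, fun e => h1 (e ▸ a3), a2⟩
      · rintro ⟨a1, a2, a3⟩
        exact ⟨⟨a1, a3⟩, adju z a1 a2⟩)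
  have e2 : (cmn G {u, x} {x}).card = n - 3 := cc {x} 3 {u, x, y} (by
    rw [card_insert_of_notMem, card_insert_of_notMem, card_singleton]
    · simpa using hxy
    · simp [hux, huy]) (by
      intro z
      rw [mem_cmn]
      simp only [mem_insert, mem_singleton, not_or, forall_eq]
      constructor
      · rintro ⟨⟨a1, a2⟩, a3⟩
        exact ⟨a1, a2, fun e => h2 (e ▸ a3)⟩
      · rintro ⟨a1, a2, a3⟩
        exact ⟨⟨a1, a2⟩, adjx z a2 a3⟩)
  have e3 : (cmn G {u, x} {u, x}).card = n - 4 := cc {u, x} 4 {u, w, x, y} c4 (by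
      intro z
      rw [mem_cmn]
      simp only [mem_insert, mem_singleton, not_or, forall_eq_or_imp, forall_eq]
      constructor
      · rintro ⟨⟨a1, a2⟩, a3, a4⟩
        exact ⟨a1, fun e => h1 (e ▸ a3), a2, fun e => h2 (e ▸ a4)⟩
      · rintro ⟨a1, a2, a3, a4⟩
        exact ⟨⟨a1, a3⟩, adju z a1 a2, adjx z a3 a4⟩)
  refine ⟨?_, hn⟩
  rw [h0, hf, Finset.sum_insert, Finset.sum_insert, Finset.sum_insert, Finset.sum_singleton,
    e0, e1, e2, e3]
  · obtain ⟨m, rfl⟩ : ∃ m, n = m + 4 := ⟨n - 4, by omega⟩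
    have f1 : m + 4 - 2 = m + 2 := by omega
    have f2 : m + 4 - 3 = m + 1 := by omega
    have f3 : m + 4 - 4 = m := by omega
    have f4 : m + 4 - 1 = m + 3 := by omega
    rw [f1, f2, f3, f4]
    ring
  · rw [mem_singleton]
    intro h
    have : u ∈ ({x} : Finset (Fin n)) := by
      rw [h]
      simp
    exact hux (by simpa using this)
  · simp only [mem_insert, mem_singleton, not_or]
    constructor
    · intro h
      exact hux (by simpa using h)
    · intro h
      have : x ∈ ({u} : Finset (Fin n)) := by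
        rw [h]
        simp
      exact hux (by simpa [eq_comm] using this)
  · simp only [mem_insert, mem_singleton, not_or]
    refine ⟨?_, ?_, ?_⟩
    · exact (singleton_ne_empty u).symm
    · exact (singleton_ne_empty x).symm
    · exact (insert_ne_empty u {x}).symm

theorem top_values (G : SimpleGraph (Fin n)) (hn : 1 ≤ n) (hbig : 2 ^ (n - 1) < (clq G).card) :
    ∃ j < n, (clq G).card = 2 ^ (n - 1) + 2 ^ j := by
  classical
  by_cases hcov : ∃ v : Fin n, ∀ x, x ≠ v → ∀ y, y ≠ v → x ≠ y → G.Adj x y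
  · obtain ⟨v, hv⟩ := hcov
    exact one_cover G v hv
  · push Not at hcov
    have huniq : ∀ {v x y : Fin n}, v ≠ x → v ≠ y → ¬ G.Adj v x → ¬ G.Adj v y → x = y :=
      fun a b c d => unique_non G hbig hcov a b c d
    obtain ⟨u, _, w, _, huw, h1⟩ := hcov ⟨0, hn⟩
    obtain ⟨x, hx, y, hy, hxy, h2⟩ := hcov u
    have hwx : w ≠ x := by
      rintro rfl
      exact hy.symm (huniq huw.symm hxy (fun h => h1 h.symm) h2)
    have hwy : w ≠ y := by
      rintro rfl
      exact hx.symm (huniq huw.symm hxy.symm (fun h => h1 h.symm) (fun h => h2 h.symm))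
    by_cases hall : ∀ p q, p ≠ q → ¬ G.Adj p q →
      (p = u ∧ q = w) ∨ (p = w ∧ q = u) ∨ (p = x ∧ q = y) ∨ (p = y ∧ q = x)
    · obtain ⟨h3, h4⟩ := two_edges G huw hxy hx.symm hy.symm hwx hwy h1 h2 hall
      exact ⟨n - 4, by omega, h3⟩
    · exfalso
      push Not at hall
      obtain ⟨p, q, hpq, h3, a1, a2, a3, a4⟩ := hall
      -- `p` and `q` are different from the other four vertices
      have key : ∀ {p q : Fin n}, p ≠ q → ¬ G.Adj p q → ¬ (p = u ∧ q = w) →
          ¬ (p = w ∧ q = u) → ¬ (p = x ∧ q = y) → ¬ (p = y ∧ q = x) →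
          p ≠ u ∧ p ≠ w ∧ p ≠ x ∧ p ≠ y := by
        intro p q hpq h3 a1 a2 a3 a4
        refine ⟨?_, ?_, ?_, ?_⟩
        · rintro rfl
          exact a1 ⟨rfl, huniq hpq huw h3 h1⟩
        · rintro rfl
          exact a2 ⟨rfl, huniq hpq huw.symm h3 (fun h => h1 h.symm)⟩
        · rintro rfl
          exact a3 ⟨rfl, huniq hpq hxy h3 h2⟩
        · rintro rfl
          exact a4 ⟨rfl, huniq hpq hxy.symm h3 (fun h => h2 h.symm)⟩
      have hp := key hpq h3 (fun h => a1 h.1 h.2) (fun h => a2 h.1 h.2)
        (fun h => a3 h.1 h.2) (fun h => a4 h.1 h.2)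
      have hq := key hpq.symm (fun h => h3 h.symm) (fun h => a2 h.2 h.1)
        (fun h => a1 h.2 h.1) (fun h => a4 h.2 h.1) (fun h => a3 h.2 h.1)
      obtain ⟨c1, d1⟩ := nIn_pair G univ huw (mem_univ u) (mem_univ w) h1
      obtain ⟨c2, d2⟩ := nIn_pair G ((univ.erase u).erase w) hxy
        (by simp [hx, hwx.symm]) (by simp [hy, hwy.symm]) h2
      obtain ⟨c3, d3⟩ := nIn_pair G ((((univ.erase u).erase w).erase x).erase y) hpq
        (by simp [hp]) (by simp [hq]) h3
      have h4 := nIn_le G ((((((univ.erase u).erase w).erase x).erase y).erase p).erase q)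
      rw [nIn_univ] at d1
      simp only [card_univ, Fintype.card_fin] at c1
      have h5 : ((((((univ.erase u).erase w).erase x).erase y).erase p).erase q :
        Finset (Fin n)).card = n - 6 := by omega
      rw [h5] at h4
      have h6 : 2 ^ (n - 1) = 32 * 2 ^ (n - 6) := by
        have : n - 1 = n - 6 + 5 := by omega
        rw [this, pow_add]
        ring
      omega

theorem top_half (hn : 1 ≤ n) (N : ℕ) :
    N ∈ S n ∧ 2 ^ (n - 1) ≤ N ↔ ∃ j < n, N + 1 = 2 ^ (n - 1) + 2 ^ j := by
  constructor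
  · rintro ⟨h1, h2⟩
    obtain ⟨G, hG⟩ := mem_S_iff.1 h1
    obtain ⟨j, hj, h3⟩ := top_values G hn (by omega)
    exact ⟨j, hj, by omega⟩
  · rintro ⟨j, hj, h⟩
    have h1 : 1 ≤ 2 ^ j := Nat.one_le_two_pow
    refine ⟨mem_S_iff.2 ?_, by omega⟩
    obtain ⟨G, hG⟩ := attain_graph (attain_single (K := n - 1) (e := j) (by omega))
    have h2 : N + 1 ∈ vals (n - 1 + 1) := ⟨G, by rw [hG, h]⟩
    rwa [Nat.sub_add_cancel hn] at h2

end top

end Pool.Agent.Helper52.CT
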