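import Pool.Agent.CliqueSharp.Final
import Pool.Agent.CliqueSharp.Lead

set_option autoImplicit false

open Finset
open Pool.Agent.CliqueCount (clq mem_clq vals cover_or_small nIn_univ dd cmn mem_cmn
  card_clq_cover)
open Pool.Agent.CliqueSharp (Dat3 Ix3 Phi3 lead_mem_range3 setOf')
open Pool.Agent.CliqueSharp.Final (S above mem_S_iff S_finite vals_finite)

namespace Pool.Agent.Helper52.CT

/-! ### upper bound for the number of large elements of `S n` -/

section graphs

variable {n k : ℕ}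

lemma cover_large (G : SimpleGraph (Fin n)) (hkn : k ≤ n) (hbig : 2 ^ (n - k) < (clq G).card) :
    ∃ C : Finset (Fin n), C.card ≤ 6 * k ∧
      ∀ x, x ∉ C → ∀ y, y ∉ C → x ≠ y → G.Adj x y := by
  rcases cover_or_small G (3 * k) univ with ⟨C, -, hC2, hC3⟩ | h
  · refine ⟨C, by omega, fun x hx y hy hxy => hC3 x (mem_univ x) hx y (mem_univ y) hy hxy⟩
  · exfalso
    rw [nIn_univ, Finset.card_univ, Fintype.card_fin, pow_mul, pow_mul] at h
    norm_num at h
    have h1 : (2 : ℕ) ^ n = 2 ^ k * 2 ^ (n - k) := by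
      rw [← pow_add]
      congr 1
      omega
    rw [h1, ← mul_assoc, ← mul_pow] at h
    norm_num at h
    have h2 : (54 : ℕ) ^ k ≤ 64 ^ k := Nat.pow_le_pow_left (by norm_num) k
    have h3 : 54 ^ k * 2 ^ (n - k) ≤ 64 ^ k * 2 ^ (n - k) := Nat.mul_le_mul_right _ h2
    have h4 : 2 ^ (n - k) * 64 ^ k < (clq G).card * 64 ^ k :=
      Nat.mul_lt_mul_of_pos_right hbig (by positivity)
    have h5 : 2 ^ (n - k) * 64 ^ k = 64 ^ k * 2 ^ (n - k) := mul_comm _ _
    omega

lemma cmn_le (G : SimpleGraph (Fin n)) (C S : Finset (Fin n)) :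
    (cmn G C S).card + C.card ≤ n := by
  have hdis : Disjoint (cmn G C S) C := by
    rw [Finset.disjoint_left]
    intro x hx
    exact ((mem_cmn G C S x).1 hx).1
  rw [← Finset.card_union_of_disjoint hdis]
  exact (Finset.card_le_univ _).trans (by simp)

lemma cmn_dd_le (G : SimpleGraph (Fin n)) (C S : Finset (Fin n)) (v : Fin n) (hv : v ∈ S) :
    (cmn G C S).card + dd G C v + C.card ≤ n := by
  have hD : ∃ D : Finset (Fin n), dd G C v = D.card ∧ ∀ x ∈ D, x ∉ C ∧ ¬ G.Adj v x := by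
    unfold dd
    refine ⟨_, rfl, ?_⟩
    intro x hx
    classical
    simp only [mem_filter] at hx
    exact hx.2
  obtain ⟨D, hD1, hD2⟩ := hD
  have hdis : Disjoint (cmn G C S) D := by
    rw [Finset.disjoint_left]
    intro x hx hx2
    rw [mem_cmn] at hx
    exact (hD2 x hx2).2 (hx.2 v hv)
  have hdis2 : Disjoint (cmn G C S ∪ D) C := by
    rw [Finset.disjoint_left]
    intro x hx
    rw [mem_union] at hx
    rcases hx with hx | hx
    · exact ((mem_cmn G C S x).1 hx).1
    · exact (hD2 x hx).1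
  rw [hD1, ← Finset.card_union_of_disjoint hdis, ← Finset.card_union_of_disjoint hdis2]
  exact (Finset.card_le_univ _).trans (by simp)

open scoped Classical in
/-- few vertices of the cover have many non-neighbours -/
lemma few_high (G : SimpleGraph (Fin n)) (C : Finset (Fin n)) (hkn : k ≤ n)
    (hC : ∀ x, x ∉ C → ∀ y, y ∉ C → x ≠ y → G.Adj x y)
    (hbig : 2 ^ (n - k) < (clq G).card) : (C.filter fun v => k < dd G C v).card ≤ k := by
  by_contra hcon
  push Not at hcon
  obtain ⟨B, hB1, hB2⟩ := Finset.exists_subset_card_eq (Nat.succ_le_of_lt hcon)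
  have hBC : B ⊆ C := hB1.trans (filter_subset _ _)
  have hBd : ∀ v ∈ B, k < dd G C v := fun v hv => (mem_filter.1 (hB1 hv)).2
  have hcC : k + 1 ≤ C.card := by
    rw [← Nat.succ_eq_add_one, ← hB2]
    exact card_le_card hBC
  have hCn : C.card ≤ n := (card_le_univ C).trans (by simp)
  obtain ⟨b, hb⟩ : B.Nonempty := card_pos.1 (by omega)
  have hdn : k + 1 + C.card ≤ n := by
    have h1 := cmn_dd_le G C {b} b (mem_singleton_self b)
    have h2 := hBd b hb
    omega
  have h0 := card_clq_cover G C hC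
  rw [← Finset.sum_filter_add_sum_filter_not _ (fun S => Disjoint S B)] at h0
  have h1 : ∑ S ∈ ((clq G).filter fun s => s ⊆ C).filter (fun S => Disjoint S B),
      2 ^ (cmn G C S).card ≤ 2 ^ (n - k - 1) := by
    calc ∑ S ∈ ((clq G).filter fun s => s ⊆ C).filter (fun S => Disjoint S B),
          2 ^ (cmn G C S).card
        ≤ ∑ S ∈ ((clq G).filter fun s => s ⊆ C).filter (fun S => Disjoint S B),
          2 ^ (n - C.card) := by
          apply Finset.sum_le_sum
          intro S _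
          apply Nat.pow_le_pow_right (by norm_num)
          have := cmn_le G C S
          omega
      _ ≤ ∑ S ∈ (C \ B).powerset, 2 ^ (n - C.card) := by
          apply Finset.sum_le_sum_of_subset
          intro S hS
          rw [mem_filter, mem_filter] at hS
          rw [mem_powerset]
          intro x hx
          rw [Finset.mem_sdiff]
          exact ⟨hS.1.2 hx, fun h => Finset.disjoint_left.1 hS.2 hx h⟩
      _ = 2 ^ (C.card - (k + 1)) * 2 ^ (n - C.card) := by
          rw [Finset.sum_const, card_powerset, card_sdiff_of_subset hBC, hB2, smul_eq_mul]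
      _ = 2 ^ (n - k - 1) := by
          rw [← pow_add]
          congr 1
          omega
  have h2 : ∑ S ∈ ((clq G).filter fun s => s ⊆ C).filter (fun S => ¬ Disjoint S B),
      2 ^ (cmn G C S).card ≤ 2 ^ (n - k - 1) := by
    calc ∑ S ∈ ((clq G).filter fun s => s ⊆ C).filter (fun S => ¬ Disjoint S B),
          2 ^ (cmn G C S).card
        ≤ ∑ S ∈ ((clq G).filter fun s => s ⊆ C).filter (fun S => ¬ Disjoint S B),
          2 ^ (n - C.card - (k + 1)) := by
          apply Finset.sum_le_sum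
          intro S hS
          rw [mem_filter, Finset.not_disjoint_iff] at hS
          obtain ⟨_, v, hv1, hv2⟩ := hS
          apply Nat.pow_le_pow_right (by norm_num)
          have h3 := cmn_dd_le G C S v hv1
          have h4 := hBd v hv2
          omega
      _ ≤ ∑ S ∈ C.powerset, 2 ^ (n - C.card - (k + 1)) := by
          apply Finset.sum_le_sum_of_subset
          intro S hS
          rw [mem_filter, mem_filter] at hS
          rw [mem_powerset]
          exact hS.1.2
      _ = 2 ^ C.card * 2 ^ (n - C.card - (k + 1)) := by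
          rw [Finset.sum_const, card_powerset, smul_eq_mul]
      _ = 2 ^ (n - k - 1) := by
          rw [← pow_add]
          congr 1
          omega
  have h3 : 2 ^ (n - k) = 2 ^ (n - k - 1) + 2 ^ (n - k - 1) := by
    rw [← two_mul, ← pow_succ']
    congr 1
    omega
  omega

open scoped Classical in
/-- the graphs with many cliques are described by the data of `CliqueSharp` -/
theorem mem_range (G : SimpleGraph (Fin n)) (hkn : k ≤ n)
    (hbig : 2 ^ (n - k) < (clq G).card) :
    ∃ d : Dat3 n (6 * k) 0 k 0 (6 * k * k) 0, (clq G).card = Phi3 d := by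
  obtain ⟨C, hC1, hC2⟩ := cover_large G hkn hbig
  have hH := few_high G C hkn hC2 hbig
  set Hi := C.filter fun v => k < dd G C v with hHi
  set Lo := C.filter fun v => ¬ (k < dd G C v) with hLo
  have hdis : Disjoint Lo Hi := by
    rw [Finset.disjoint_left]
    intro v h1 h2
    rw [hLo, mem_filter] at h1
    rw [hHi, mem_filter] at h2
    exact h1.2 h2.2
  have hun : Lo ∪ ∅ ∪ Hi = C := by
    ext v
    simp only [hLo, hHi, mem_union, mem_filter, notMem_empty, or_false]
    tauto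
  have hLoc : Lo.card ≤ 6 * k := (card_le_card (filter_subset _ _)).trans hC1
  have hW1 : (univ.filter fun x => x ∉ C ∧ ∃ v ∈ Lo, ¬ G.Adj v x).card ≤ 6 * k * k := by
    have h1 : (univ.filter fun x => x ∉ C ∧ ∃ v ∈ Lo, ¬ G.Adj v x) ⊆
        Lo.biUnion (fun v => univ.filter fun x => x ∉ C ∧ ¬ G.Adj v x) := by
      intro x hx
      rw [mem_filter] at hx
      obtain ⟨_, hx1, v, hv, hvx⟩ := hx
      rw [mem_biUnion]
      exact ⟨v, hv, mem_filter.2 ⟨mem_univ _, hx1, hvx⟩⟩
    calc _ ≤ _ := card_le_card h1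
      _ ≤ Lo.card * k := by
          apply Finset.card_biUnion_le_card_mul
          intro v hv
          have h2 : ¬ (k < dd G C v) := (mem_filter.1 hv).2
          have h3 : dd G C v = (univ.filter fun x => x ∉ C ∧ ¬ G.Adj v x).card := by
            unfold dd
            congr!
          omega
      _ ≤ 6 * k * k := Nat.mul_le_mul_right _ hLoc
  obtain ⟨d, hd⟩ := lead_mem_range3 (n := n) (y1 := 6 * k) (y2 := 0) (κ := k) (s₀ := 0)
    (W1 := 6 * k * k) (W2 := 0) G C Lo ∅ Hi (by simp) hLoc (by simp) hH (by simp) hdis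
    (by simp) (by convert hW1) (by simp)
  refine ⟨d, ?_⟩
  rw [← hd, card_clq_cover G C hC2]
  refine sum_congr ?_ (fun S _ => by
    congr
    exact Subsingleton.elim _ _)
  ext s
  have h5 : s ⊆ C ↔ ∀ x ∈ s, (x ∈ Lo ∨ x ∈ (∅ : Finset (Fin n))) ∨ x ∈ Hi := by
    rw [← hun, Finset.subset_iff]
    simp only [mem_union]
  simp only [mem_filter, Finset.subset_iff, mem_union] at h5 ⊢
  refine and_congr Iff.rfl ?_
  exact h5

/-- the type of the keys -/
abbrev KT (k : ℕ) : Type := (Fin 0 → Option (Fin 0)) × Finset (Fin k)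

/-- the key of the common neighbours of all special vertices -/
def k0 (k : ℕ) : KT k := (fun i => i.elim0, ∅)

lemma card_KT : Fintype.card {K : KT k // K ≠ k0 k} = 2 ^ k - 1 := by
  rw [Fintype.card_subtype_compl, Fintype.card_subtype_eq]
  simp [Fintype.card_prod, Fintype.card_finset]

/-- the data without the number of the common neighbours -/
def red {y W : ℕ} (d : Dat3 n y 0 k 0 W 0) : Dat3 n y 0 k 0 W 0 :=
  (d.1, d.2.1, d.2.2.1, Function.update d.2.2.2 (k0 k) 0)

lemma phi_red {y W : ℕ} (d : Dat3 n y 0 k 0 W 0) :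
    Phi3 d = 2 ^ (d.2.2.2 (k0 k) : ℕ) * Phi3 (red d) := by
  classical
  unfold Phi3
  rw [Finset.mul_sum]
  apply Finset.sum_congr rfl
  intro S _
  rw [← pow_add]
  congr 1
  have h2 : ∀ (P : KT k → Prop) [DecidablePred P], P (k0 k) →
      ∑ K ∈ univ.filter P, (d.2.2.2 K : ℕ) = (d.2.2.2 (k0 k) : ℕ) +
        ∑ K ∈ univ.filter P, ((red d).2.2.2 K : ℕ) := by
    intro P _ hP
    have h1 : k0 k ∈ univ.filter P := mem_filter.2 ⟨mem_univ _, hP⟩
    rw [← Finset.add_sum_erase _ _ h1, ← Finset.add_sum_erase _ (fun K =>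
      ((red d).2.2.2 K : ℕ)) h1]
    have e1 : ((red d).2.2.2 (k0 k) : ℕ) = 0 := by
      simp [red]
    rw [e1, zero_add]
    congr 1
    apply Finset.sum_congr rfl
    intro K hK
    rw [mem_erase] at hK
    simp [red, Function.update_of_ne hK.1]
  have hP : Disjoint (setOf' (k0 k).1) S.toRight.toLeft ∧ Disjoint (k0 k).2 S.toRight.toRight := by
    refine ⟨?_, Finset.disjoint_empty_left _⟩
    rw [Finset.disjoint_left]
    intro a
    exact a.elim0
  have h3 : (red d).2.1 = d.2.1 := rfl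
  have h4 : (red d).2.2.1 = d.2.2.1 := rfl
  rw [h2 _ hP, h3, h4]
  have h6 : ∀ A B m X : ℕ, A + (B + (m + X)) = m + (A + (B + X)) := by
    intro A B m X
    omega
  exact h6 _ _ _ _

/-- the code of the data: all the data except the number of the common neighbours, of which
only the residue modulo `k` is kept -/
abbrev Code (n k : ℕ) : Type :=
  (Finset (Ix3 (6 * k) 0 k × Ix3 (6 * k) 0 k) × (Fin (6 * k * k) →
    Option (Finset (Ix3 (6 * k) 0 k)))) × (({K : KT k // K ≠ k0 k} → Fin (n + 1)) × Fin k)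

lemma card_Code : Fintype.card (Code n k) = 2 ^ ((6 * k + k) * (6 * k + k)) *
    (2 ^ (6 * k + k) + 1) ^ (6 * k * k) * ((n + 1) ^ (2 ^ k - 1) * k) := by
  rw [Fintype.card_prod, Fintype.card_prod, Fintype.card_prod, Fintype.card_finset,
    Fintype.card_fun, Fintype.card_fun, card_KT, Fintype.card_option, Fintype.card_finset]
  simp [Fintype.card_prod]

/-- the code -/
def code (hk : 1 ≤ k) (d : Dat3 n (6 * k) 0 k 0 (6 * k * k) 0) : Code n k :=
  ((d.1, d.2.1), (fun K => d.2.2.2 K.1), ⟨(d.2.2.2 (k0 k) : ℕ) % k, Nat.mod_lt _ hk⟩)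

lemma red_of_code (hk : 1 ≤ k) {d d' : Dat3 n (6 * k) 0 k 0 (6 * k * k) 0}
    (h : code hk d = code hk d') : red d = red d' := by
  unfold code at h
  rw [Prod.mk.injEq, Prod.mk.injEq, Prod.mk.injEq] at h
  obtain ⟨⟨h1, h2⟩, h3, _⟩ := h
  unfold red
  have h4 : Function.update d.2.2.2 (k0 k) 0 = Function.update d'.2.2.2 (k0 k) 0 := by
    funext K
    by_cases hK : K = k0 k
    · subst hK
      simp
    · rw [Function.update_of_ne hK, Function.update_of_ne hK]
      exact congrFun h3 ⟨K, hK⟩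
  have h5 : d.2.2.1 = d'.2.2.1 := by
    funext i
    exact i.elim0
  rw [h1, h2, h4, h5]

lemma window_eq {p j j' N N' : ℕ} (hkn : k ≤ n) (h1 : N = 2 ^ j * p) (h2 : N' = 2 ^ j' * p)
    (hN : 2 ^ (n - k) < N) (hN' : N' ≤ 2 ^ n) (hjj : j ≤ j') (hm : j % k = j' % k) :
    j = j' := by
  by_contra hne
  have h3 : j + k ≤ j' := by
    have h4 : k ∣ j' - j := (Nat.modEq_iff_dvd' hjj).1 hm
    have h5 := Nat.le_of_dvd (by omega) h4
    omega
  have h6 : 2 ^ k * N ≤ N' := by
    rw [h1, h2, ← mul_assoc, ← pow_add]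
    apply Nat.mul_le_mul_right
    exact Nat.pow_le_pow_right (by norm_num) (by omega)
  have h7 : 2 ^ k * 2 ^ (n - k) < 2 ^ k * N := Nat.mul_lt_mul_of_pos_left hN (by positivity)
  have h8 : 2 ^ k * 2 ^ (n - k) = 2 ^ n := by
    rw [← pow_add]
    congr 1
    omega
  omega

lemma vals_le {N : ℕ} (h : N ∈ vals n) : N ≤ 2 ^ n := by
  obtain ⟨G, hG⟩ := h
  rw [← hG]
  calc (clq G).card ≤ (univ : Finset (Finset (Fin n))).card := card_le_card (subset_univ _)
    _ = 2 ^ n := by simp

theorem ncard_le (hk : 1 ≤ k) (hkn : k ≤ n) :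
    {N ∈ vals n | 2 ^ (n - k) < N}.ncard ≤ 2 ^ ((6 * k + k) * (6 * k + k)) *
      (2 ^ (6 * k + k) + 1) ^ (6 * k * k) * ((n + 1) ^ (2 ^ k - 1) * k) := by
  have hex : ∀ N : ℕ, N ∈ {N ∈ vals n | 2 ^ (n - k) < N} →
      ∃ c : Code n k, ∃ d : Dat3 n (6 * k) 0 k 0 (6 * k * k) 0, N = Phi3 d ∧ c = code hk d := by
    rintro N ⟨⟨G, hG⟩, h2⟩
    obtain ⟨d, hd⟩ := mem_range G hkn (by rw [hG]; exact h2)
    exact ⟨code hk d, d, by rw [← hd, hG], rfl⟩
  have : Nonempty (Fin k) := ⟨⟨0, hk⟩⟩
  have : Nonempty (Code n k) := inferInstance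
  choose! f hf using hex
  rw [← card_Code, ← Nat.card_eq_fintype_card, ← Set.ncard_univ]
  apply Set.ncard_le_ncard_of_injOn f (fun _ _ => Set.mem_univ _) _ Set.finite_univ
  intro N hN N' hN' h
  obtain ⟨d, hd1, hd2⟩ := hf N hN
  obtain ⟨d', hd1', hd2'⟩ := hf N' hN'
  have hc : code hk d = code hk d' := by rw [← hd2, ← hd2', h]
  have hr := red_of_code hk hc
  have hm : (d.2.2.2 (k0 k) : ℕ) % k = (d'.2.2.2 (k0 k) : ℕ) % k := by
    have := congrArg (fun c : Code n k => (c.2.2 : ℕ)) hc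
    exact this
  rw [phi_red] at hd1 hd1'
  rw [← hr] at hd1'
  have hj : (d.2.2.2 (k0 k) : ℕ) = (d'.2.2.2 (k0 k) : ℕ) := by
    rcases le_total (d.2.2.2 (k0 k) : ℕ) (d'.2.2.2 (k0 k) : ℕ) with hle | hle
    · exact window_eq hkn hd1 hd1' hN.2 (vals_le hN'.1) hle hm
    · exact (window_eq hkn hd1' hd1 hN'.2 (vals_le hN.1) hle hm.symm).symm
  rw [hd1, hd1', hj]

theorem upper (hk : 1 ≤ k) (hkn : k ≤ n) :
    above n (2 ^ (n - k)) ≤ 2 ^ (98 * k ^ 3) * (n + 1) ^ (2 ^ k - 1) := by
  have h1 : above n (2 ^ (n - k)) ≤ {N ∈ vals n | 2 ^ (n - k) < N}.ncard := by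
    unfold above
    refine Set.ncard_le_ncard_of_injOn (fun N => N + 1) ?_ ?_ ((vals_finite n).subset
      (Set.sep_subset _ _))
    · rintro N ⟨h1, h2⟩
      refine ⟨mem_S_iff.1 h1, ?_⟩
      have h3 : (2 : ℕ) ^ (n - k) ≤ N := by exact_mod_cast h2
      exact Nat.lt_succ_of_le h3
    · intro a _ b _ h
      simpa using h
  refine h1.trans ((ncard_le hk hkn).trans ?_)
  have h2 : (2 ^ (6 * k + k) + 1) ^ (6 * k * k) ≤ 2 ^ ((7 * k + 1) * (6 * k * k)) := by
    rw [pow_mul 2 (7 * k + 1) (6 * k * k)]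
    apply Nat.pow_le_pow_left
    have : 2 ^ (7 * k + 1) = 2 ^ (6 * k + k) + 2 ^ (6 * k + k) := by
      rw [← two_mul, ← pow_succ']
      congr 1
      omega
    rw [this]
    have := Nat.one_le_two_pow (n := 6 * k + k)
    omega
  have h3 : k ≤ 2 ^ k := Nat.lt_two_pow_self.le
  calc 2 ^ ((6 * k + k) * (6 * k + k)) * (2 ^ (6 * k + k) + 1) ^ (6 * k * k) *
        ((n + 1) ^ (2 ^ k - 1) * k)
      ≤ 2 ^ ((6 * k + k) * (6 * k + k)) * 2 ^ ((7 * k + 1) * (6 * k * k)) *
        ((n + 1) ^ (2 ^ k - 1) * 2 ^ k) := by gcongr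
    _ = 2 ^ ((6 * k + k) * (6 * k + k) + (7 * k + 1) * (6 * k * k) + k) *
        (n + 1) ^ (2 ^ k - 1) := by
        rw [pow_add, pow_add]
        ring
    _ ≤ 2 ^ (98 * k ^ 3) * (n + 1) ^ (2 ^ k - 1) := by
        apply Nat.mul_le_mul_right
        apply Nat.pow_le_pow_right (by norm_num)
        nlinarith [Nat.mul_le_mul hk hk, Nat.mul_le_mul_left (k * k) hk, Nat.mul_le_mul_left k hk]

end graphs

end Pool.Agent.Helper52.CT
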