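import Pool.Agent.Helper52.CT.Low
import Pool.Agent.Helper52.CT.Up
import Pool.Agent.Helper52.CT.Top

set_option autoImplicit false

open Finset
open Pool.Agent.CliqueCount (clq mem_clq vals)
open Pool.Agent.CliqueSharp.Final (S above mem_S_iff S_finite)

namespace Pool.Agent.Helper52.CT

lemma one_le_above {k n : ℕ} (hk : 1 ≤ k) (hkn : k ≤ n) : 1 ≤ above n (2 ^ (n - k)) := by
  have h1 : 2 ^ n ∈ vals n := ⟨⊤, by rw [clq_top]; simp⟩
  have h2 : 2 ^ (n - k) + 1 ≤ 2 ^ n := by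
    have : 2 ^ (n - k) < 2 ^ n := Nat.pow_lt_pow_right (by norm_num) (by omega)
    exact this
  have h3 : 2 ^ n - 1 ∈ S n := by
    rw [mem_S_iff, Nat.sub_add_cancel Nat.one_le_two_pow]
    exact h1
  have h4 : 2 ^ n - 1 ∈ {N ∈ S n | (2 : ℝ) ^ (n - k) ≤ N} := by
    refine ⟨h3, ?_⟩
    have : 2 ^ (n - k) ≤ 2 ^ n - 1 := Nat.le_sub_one_of_lt h2
    exact_mod_cast this
  unfold above
  rw [Nat.one_le_iff_ne_zero]
  intro h
  rw [Set.ncard_eq_zero ((S_finite n).subset (Set.sep_subset _ _))] at h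
  rw [h] at h4
  exact h4

theorem lower_real {k n : ℕ} (hk : 1 ≤ k) (hkn : k ≤ n) :
    ((n : ℝ) / 4 ^ (k + 1)) ^ (2 ^ k - 1) ≤ above n (2 ^ (n - k)) := by
  by_cases hn : 4 ^ (k + 1) ≤ n
  · have hpos : 0 < 4 ^ k := by positivity
    set r := (n - k) / 4 ^ k with hr
    have h1 : 4 ^ k * r ≤ n - k := Nat.mul_div_le _ _
    have h2 : n - k < 4 ^ k * (r + 1) := Nat.lt_mul_div_succ _ hpos
    have hk4 : k < 4 ^ k := Nat.lt_pow_self (by norm_num)
    have h4 : 4 ^ (k + 1) = 4 * 4 ^ k := by rw [pow_succ]; ring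
    have hr1 : 1 ≤ r := by
      rw [hr, Nat.one_le_div_iff hpos]
      omega
    have h3 := lower (n := n) hk hr1 (by omega)
    have h5 : (n : ℝ) / 4 ^ (k + 1) ≤ r := by
      rw [div_le_iff₀ (by positivity)]
      have h6 : n ≤ r * 4 ^ (k + 1) := by
        have e1 : r * 4 ^ (k + 1) = 4 * (4 ^ k * r) := by rw [h4]; ring
        have e2 : 4 ^ k * (r + 1) = 4 ^ k * r + 4 ^ k := by ring
        have e3 : 4 ^ k * 1 ≤ 4 ^ k * r := Nat.mul_le_mul_left _ hr1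
        rw [e1]
        omega
      exact_mod_cast h6
    calc ((n : ℝ) / 4 ^ (k + 1)) ^ (2 ^ k - 1) ≤ (r : ℝ) ^ (2 ^ k - 1) :=
          pow_le_pow_left₀ (by positivity) h5 _
      _ ≤ above n (2 ^ (n - k)) := by exact_mod_cast h3
  · push Not at hn
    have h1 : (n : ℝ) / 4 ^ (k + 1) ≤ 1 := by
      rw [div_le_one (by positivity)]
      exact_mod_cast hn.le
    calc ((n : ℝ) / 4 ^ (k + 1)) ^ (2 ^ k - 1) ≤ 1 := pow_le_one₀ (by positivity) h1
      _ ≤ above n (2 ^ (n - k)) := by exact_mod_cast one_le_above hk hkn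

end Pool.Agent.Helper52.CT
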