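import Pool.Agent.CliqueSharp.Final

set_option autoImplicit false

open Finset
open Pool.Agent.CliqueCount (clq mem_clq vals tot cnt full Attain attain_of attain_graph cnt_empty)
open Pool.Agent.CliqueSharp.Final (S above mem_S_iff S_finite)

namespace Pool.Agent.Helper52.CT

/-! ### lower bound for the number of large elements of `S n` -/

section types

variable {k : ℕ}

/-- the vertices of the big clique, sorted by their types -/
abbrev XX (M : Finset (Fin k) → ℕ) : Type := Σ T : Finset (Fin k), Fin (M T)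

/-- adjacency between the special vertices and the vertices of the big clique -/
def AA (M : Finset (Fin k) → ℕ) : Fin k → XX M → Prop := fun y x => y ∉ x.1

lemma cnt_AA (M : Finset (Fin k) → ℕ) (S : Finset (Fin k)) :
    cnt (AA M) S = ∑ T ∈ univ.filter (fun T => Disjoint T S), M T := by
  classical
  unfold cnt AA
  have h1 : (univ.filter fun x : XX M => ∀ y ∈ S, y ∉ x.1) =
      (univ.filter fun T : Finset (Fin k) => Disjoint T S).sigma
        (fun T => (univ : Finset (Fin (M T)))) := by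
    ext x
    simp only [mem_filter, mem_univ, true_and, mem_sigma, and_true, Finset.disjoint_right]
  have h2 := Finset.card_sigma (univ.filter fun T : Finset (Fin k) => Disjoint T S)
        (fun T => (univ : Finset (Fin (M T))))
  rw [← h1] at h2
  simp only [Finset.card_univ, Fintype.card_fin] at h2
  rw [← h2]
  congr!

lemma clq_top {Y : Type*} [Fintype Y] : clq (⊤ : SimpleGraph Y) = univ := by
  ext s
  rw [mem_clq]
  simp only [mem_univ, iff_true]
  intro a _ b _ hab
  exact hab

/-- the value of the graph with multiplicities `M` -/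
noncomputable def val (M : Finset (Fin k) → ℕ) : ℕ :=
  ∑ S : Finset (Fin k), 2 ^ (∑ T ∈ univ.filter (fun T => Disjoint T S), M T)

lemma tot_AA (M : Finset (Fin k) → ℕ) : tot (⊤ : SimpleGraph (Fin k)) (AA M) = val M := by
  unfold tot val
  rw [clq_top]
  apply Finset.sum_congr rfl
  intro S _
  rw [cnt_AA]

lemma val_mem {n : ℕ} (hk : 1 ≤ k) (M : Finset (Fin k) → ℕ) (hM : ∑ T, M T + k = n) :
    2 ^ (n - k) + 1 ≤ val M ∧ val M ∈ vals n := by
  have hn : n - k = ∑ T, M T := by omega
  have h0 : ∑ T ∈ univ.filter (fun T => Disjoint T (∅ : Finset (Fin k))), M T = ∑ T, M T := by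
    congr 1
    ext T
    simp
  have hge : 2 ^ (n - k) + 1 ≤ val M := by
    unfold val
    rw [← Finset.add_sum_erase univ _ (mem_univ (∅ : Finset (Fin k))), h0, hn]
    apply Nat.add_le_add_left
    rw [Nat.succ_le_iff]
    apply Finset.sum_pos
    · intro S _
      positivity
    · exact ⟨{⟨0, hk⟩}, by simp⟩
  refine ⟨hge, ?_⟩
  obtain ⟨h, hh⟩ : ∃ h, val M = 2 ^ (n - k) + h := ⟨val M - 2 ^ (n - k), by omega⟩
  have hX : Fintype.card (XX M) = n - k := by
    rw [Fintype.card_sigma]
    simp only [Fintype.card_fin]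
    exact hn.symm
  have ha : Attain (n - k) k h := attain_of (⊤ : SimpleGraph (Fin k)) (AA M) hX (by simp)
    (by rw [tot_AA, hh])
  obtain ⟨G, hG⟩ := attain_graph ha
  have e : n - k + k = n := by omega
  have h2 : val M ∈ vals (n - k + k) := ⟨G, by rw [hG, hh]⟩
  rwa [e] at h2

/-- binary number of a set -/
def bin (S : Finset (Fin k)) : ℕ := ∑ j ∈ S, 2 ^ (j : ℕ)

lemma bin_inj : Function.Injective (bin : Finset (Fin k) → ℕ) := by
  intro S T h
  have h1 : ∀ R : Finset (Fin k), bin R = ∑ i ∈ R.map Fin.valEmbedding, 2 ^ i := by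
    intro R
    rw [Finset.sum_map]
    rfl
  rw [h1, h1] at h
  have h2 := Finset.geomSum_injective (le_refl 2) h
  exact Finset.map_injective _ h2

/-- the base weights: `2 ^ j` for the singleton `j` -/
def ww (T : Finset (Fin k)) : ℕ := ∑ j, if T = {j} then 2 ^ (j : ℕ) else 0

lemma sum_ww (S : Finset (Fin k)) :
    ∑ T ∈ univ.filter (fun T => ¬ Disjoint T S), ww T = bin S := by
  unfold ww bin
  rw [Finset.sum_comm]
  have h1 : ∀ j : Fin k, (∑ T ∈ univ.filter (fun T => ¬ Disjoint T S),
      if T = {j} then 2 ^ (j : ℕ) else 0) = if j ∈ S then 2 ^ (j : ℕ) else 0 := by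
    intro j
    rw [← Finset.sum_filter]
    by_cases hj : j ∈ S
    · rw [if_pos hj]
      have : (univ.filter (fun T => ¬ Disjoint T S)).filter (fun T => T = {j}) = {{j}} := by
        ext T
        simp only [mem_filter, mem_univ, true_and, mem_singleton]
        constructor
        · exact fun h => h.2
        · rintro rfl
          exact ⟨by simpa using hj, rfl⟩
      rw [this, Finset.sum_singleton]
    · rw [if_neg hj]
      have : (univ.filter (fun T => ¬ Disjoint T S)).filter (fun T => T = {j}) = ∅ := by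
        ext T
        simp only [mem_filter, mem_univ, true_and, notMem_empty, iff_false, not_and]
        rintro h rfl
        exact h (by simpa using hj)
      rw [this, Finset.sum_empty]
  simp only [h1]
  rw [Finset.sum_ite_mem, Finset.univ_inter]

lemma sum_ww_univ : ∑ T : Finset (Fin k), ww T = 2 ^ k - 1 := by
  unfold ww
  rw [Finset.sum_comm]
  have h1 : ∀ j : Fin k, (∑ T : Finset (Fin k), if T = {j} then 2 ^ (j : ℕ) else 0) =
      2 ^ (j : ℕ) := by
    intro j
    simp
  simp only [h1]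
  rw [Fin.sum_univ_eq_sum_range (fun i => 2 ^ i) k]
  have := Nat.geomSum_eq (m := 2) le_rfl k
  simpa using this

lemma ww_empty : ww (∅ : Finset (Fin k)) = 0 := by
  unfold ww
  apply Finset.sum_eq_zero
  intro j _
  rw [if_neg]
  exact (Finset.singleton_ne_empty j).symm

/-- weights of the types -/
def MM (L : ℕ) (a : Finset (Fin k) → ℕ) (T : Finset (Fin k)) : ℕ := L * ww T + a T

/-- the weights with the right total -/
def MF (m L : ℕ) (a : Finset (Fin k) → ℕ) (T : Finset (Fin k)) : ℕ :=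
  if T = ∅ then m - ∑ T, MM L a T else MM L a T

lemma MM_empty {L : ℕ} {a : Finset (Fin k) → ℕ} (h0 : a ∅ = 0) : MM L a ∅ = 0 := by
  unfold MM
  rw [ww_empty, h0, mul_zero, add_zero]

lemma sum_MF {m L : ℕ} {a : Finset (Fin k) → ℕ} (h0 : a ∅ = 0) (h : ∑ T, MM L a T ≤ m) :
    ∑ T, MF m L a T = m := by
  have h1 : ∀ b : Finset (Fin k) → ℕ, ∑ T, b T = b ∅ + ∑ T ∈ univ.erase ∅, b T := fun b =>
    (Finset.add_sum_erase univ b (mem_univ ∅)).symm
  have h2 : ∑ T ∈ univ.erase (∅ : Finset (Fin k)), MF m L a T =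
      ∑ T ∈ univ.erase (∅ : Finset (Fin k)), MM L a T := by
    apply Finset.sum_congr rfl
    intro T hT
    exact if_neg (Finset.ne_of_mem_erase hT)
  have h3 : MF m L a ∅ = m - ∑ T, MM L a T := if_pos rfl
  have h4 := h1 (MM L a)
  rw [MM_empty h0, zero_add] at h4
  rw [h1, h2, h3, ← h4]
  omega

/-- the defect of the exponents -/
def uu (L : ℕ) (a : Finset (Fin k) → ℕ) (S : Finset (Fin k)) : ℕ :=
  ∑ T ∈ univ.filter (fun T => ¬ Disjoint T S), MM L a T

lemma expo {m L : ℕ} {a : Finset (Fin k) → ℕ} (h0 : a ∅ = 0) (h : ∑ T, MM L a T ≤ m)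
    (S : Finset (Fin k)) :
    ∑ T ∈ univ.filter (fun T => Disjoint T S), MF m L a T + uu L a S = m := by
  have h1 := Finset.sum_filter_add_sum_filter_not univ (fun T => Disjoint T S) (MF m L a)
  rw [sum_MF h0 h] at h1
  have h2 : uu L a S = ∑ T ∈ univ.filter (fun T => ¬ Disjoint T S), MF m L a T := by
    unfold uu
    apply Finset.sum_congr rfl
    intro T hT
    rw [mem_filter] at hT
    unfold MF
    rw [if_neg]
    rintro rfl
    exact hT.2 (Finset.disjoint_empty_left S)
  rw [h2]
  exact h1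

lemma uu_eq (L : ℕ) (a : Finset (Fin k) → ℕ) (S : Finset (Fin k)) :
    uu L a S = L * bin S + ∑ T ∈ univ.filter (fun T => ¬ Disjoint T S), a T := by
  unfold uu MM
  rw [Finset.sum_add_distrib, ← Finset.mul_sum, sum_ww]

lemma small_sum {L : ℕ} {a : Finset (Fin k) → ℕ} (ha : ∑ T, a T < L) (S : Finset (Fin k)) :
    ∑ T ∈ univ.filter (fun T => ¬ Disjoint T S), a T < L :=
  lt_of_le_of_lt (Finset.sum_le_sum_of_subset (filter_subset _ _)) ha

lemma uu_div {L : ℕ} {a : Finset (Fin k) → ℕ} (ha : ∑ T, a T < L) (S : Finset (Fin k)) :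
    uu L a S / L = bin S := by
  rw [uu_eq, Nat.mul_add_div (by omega), Nat.div_eq_of_lt (small_sum ha S), add_zero]

lemma val_eq {m L : ℕ} {a : Finset (Fin k) → ℕ} (h0 : a ∅ = 0) (h : ∑ T, MM L a T ≤ m)
    (ha : ∑ T, a T < L) :
    val (MF m L a) = ∑ e ∈ univ.image (fun S => m - uu L a S), 2 ^ e := by
  have h1 : ∀ S : Finset (Fin k), ∑ T ∈ univ.filter (fun T => Disjoint T S), MF m L a T =
      m - uu L a S := by
    intro S
    have := expo h0 h S
    omega
  unfold val
  simp only [h1]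
  rw [Finset.sum_image]
  intro S _ S' _ hS
  simp only at hS
  have h2 := expo h0 h S
  have h3 := expo h0 h S'
  have h4 : uu L a S = uu L a S' := by omega
  apply bin_inj
  rw [← uu_div ha S, ← uu_div ha S', h4]

lemma uu_of_val {m L : ℕ} {a b : Finset (Fin k) → ℕ} (ha0 : a ∅ = 0) (hb0 : b ∅ = 0)
    (ha : ∑ T, MM L a T ≤ m) (hb : ∑ T, MM L b T ≤ m) (ha' : ∑ T, a T < L)
    (hb' : ∑ T, b T < L) (h : val (MF m L a) = val (MF m L b)) (S : Finset (Fin k)) :
    uu L a S = uu L b S := by
  rw [val_eq ha0 ha ha', val_eq hb0 hb hb'] at h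
  have h1 := Finset.geomSum_injective (le_refl 2) h
  have h2 : m - uu L a S ∈ univ.image (fun S => m - uu L b S) := by
    rw [← h1]
    exact mem_image_of_mem _ (mem_univ S)
  rw [mem_image] at h2
  obtain ⟨S', _, hS'⟩ := h2
  have h3 := expo ha0 ha S
  have h4 := expo hb0 hb S'
  have h5 : uu L a S = uu L b S' := by omega
  have h6 : S = S' := by
    apply bin_inj
    rw [← uu_div ha' S, ← uu_div hb' S', h5]
  rw [h5, h6]

lemma eq_of_uu {L : ℕ} {a b : Finset (Fin k) → ℕ} (ha0 : a ∅ = 0) (hb0 : b ∅ = 0)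
    (h : ∀ S, uu L a S = uu L b S) : a = b := by
  have h1 : ∀ S : Finset (Fin k), ∑ T ∈ univ.filter (fun T => ¬ Disjoint T S), a T =
      ∑ T ∈ univ.filter (fun T => ¬ Disjoint T S), b T := by
    intro S
    have := h S
    rw [uu_eq, uu_eq] at this
    omega
  -- sums over the subsets
  have h2 : ∀ c : Finset (Fin k) → ℕ, c ∅ = 0 → ∀ R : Finset (Fin k),
      ∑ T ∈ univ.filter (fun T => T ⊆ R), c T +
        ∑ T ∈ univ.filter (fun T => ¬ Disjoint T Rᶜ), c T =
      ∑ T ∈ univ.filter (fun T => ¬ Disjoint T (univ : Finset (Fin k))), c T := by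
    intro c hc R
    have e1 : ∑ T ∈ univ.filter (fun T => ¬ Disjoint T (univ : Finset (Fin k))), c T =
        ∑ T, c T := by
      rw [Finset.sum_filter]
      apply Finset.sum_congr rfl
      intro T _
      by_cases hT : Disjoint T (univ : Finset (Fin k))
      · have : T = ∅ := by
          rw [Finset.disjoint_left] at hT
          rw [Finset.eq_empty_iff_forall_notMem]
          intro x hx
          exact hT hx (mem_univ x)
        subst this
        simp [hc]
      · rw [if_pos hT]
    rw [e1, ← Finset.sum_filter_add_sum_filter_not univ (fun T => T ⊆ R) c]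
    congr 1
    apply Finset.sum_congr _ (fun _ _ => rfl)
    ext T
    simp only [mem_filter, mem_univ, true_and]
    rw [not_iff_not, Finset.disjoint_left]
    constructor
    · intro hT x hx
      have := hT hx
      simpa using this
    · intro hT x hx
      simpa using hT hx
  have h3 : ∀ R : Finset (Fin k), ∑ T ∈ univ.filter (fun T => T ⊆ R), a T =
      ∑ T ∈ univ.filter (fun T => T ⊆ R), b T := by
    intro R
    have e1 := h2 a ha0 R
    have e2 := h2 b hb0 R
    have e3 := h1 Rᶜ
    have e4 := h1 univ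
    omega
  funext R
  induction R using Finset.strongInduction with
  | H R ih =>
    have e1 := h3 R
    have e2 : ∀ c : Finset (Fin k) → ℕ, ∑ T ∈ univ.filter (fun T => T ⊆ R), c T =
        c R + ∑ T ∈ (univ.filter (fun T => T ⊆ R)).erase R, c T := fun c =>
      (Finset.add_sum_erase _ c (by simp)).symm
    rw [e2, e2] at e1
    have e3 : ∑ T ∈ (univ.filter (fun T => T ⊆ R)).erase R, a T =
        ∑ T ∈ (univ.filter (fun T => T ⊆ R)).erase R, b T := by
      apply Finset.sum_congr rfl
      intro T hT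
      rw [mem_erase, mem_filter] at hT
      exact ih T (Finset.ssubset_iff_subset_ne.2 ⟨hT.2.2, hT.1⟩)
    omega

/-- extension by zero -/
def ext0 {r : ℕ} (a : {T : Finset (Fin k) // T ≠ ∅} → Fin r) (T : Finset (Fin k)) : ℕ :=
  if h : T ≠ ∅ then (a ⟨T, h⟩ : ℕ) else 0

lemma ext0_empty {r : ℕ} (a : {T : Finset (Fin k) // T ≠ ∅} → Fin r) : ext0 a ∅ = 0 := by
  unfold ext0
  rw [dif_neg]
  simp

lemma ext0_inj {r : ℕ} : Function.Injective
    (ext0 : ({T : Finset (Fin k) // T ≠ ∅} → Fin r) → Finset (Fin k) → ℕ) := by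
  intro a b h
  funext T
  have := congrFun h T.1
  unfold ext0 at this
  rw [dif_pos T.2, dif_pos T.2] at this
  exact Fin.ext this

lemma sum_ext0 {r : ℕ} (hr : 1 ≤ r) (a : {T : Finset (Fin k) // T ≠ ∅} → Fin r) :
    ∑ T, ext0 a T < 2 ^ k * r := by
  have h1 : ∑ T : Finset (Fin k), ext0 a T ≤ ∑ T : Finset (Fin k), (r - 1) := by
    apply Finset.sum_le_sum
    intro T _
    unfold ext0
    split_ifs with h
    · have := (a ⟨T, h⟩).2
      omega
    · omega
  rw [Finset.sum_const, Finset.card_univ, Fintype.card_finset, Fintype.card_fin,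
    smul_eq_mul] at h1
  refine lt_of_le_of_lt h1 ?_
  exact Nat.mul_lt_mul_of_pos_left (by omega) (by positivity)

lemma sum_MM_ext0 {r : ℕ} (hr : 1 ≤ r) (a : {T : Finset (Fin k) // T ≠ ∅} → Fin r) :
    ∑ T, MM (2 ^ k * r) (ext0 a) T ≤ 4 ^ k * r := by
  unfold MM
  rw [Finset.sum_add_distrib, ← Finset.mul_sum, sum_ww_univ]
  have h1 := sum_ext0 hr a
  have h2 : (4 : ℕ) ^ k * r = 2 ^ k * r * (2 ^ k - 1) + 2 ^ k * r := by
    have h3 : (4 : ℕ) ^ k = 2 ^ k * 2 ^ k := by
      rw [← mul_pow]
      norm_num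
    have h4 : 2 ^ k * r * (2 ^ k - 1) + 2 ^ k * r = 2 ^ k * r * (2 ^ k - 1 + 1) := by ring
    rw [h4, Nat.sub_add_cancel Nat.one_le_two_pow, h3]
    ring
  omega

lemma card_ne : Fintype.card {T : Finset (Fin k) // T ≠ ∅} = 2 ^ k - 1 := by
  rw [Fintype.card_subtype_compl, Fintype.card_finset, Fintype.card_fin,
    Fintype.card_subtype_eq]

theorem lower {n r : ℕ} (hk : 1 ≤ k) (hr : 1 ≤ r) (hn : 4 ^ k * r + k ≤ n) :
    r ^ (2 ^ k - 1) ≤ above n (2 ^ (n - k)) := by
  let g : ({T : Finset (Fin k) // T ≠ ∅} → Fin r) → ℕ := fun a =>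
    val (MF (n - k) (2 ^ k * r) (ext0 a)) - 1
  have hs : ∀ a : {T : Finset (Fin k) // T ≠ ∅} → Fin r,
      ∑ T, MM (2 ^ k * r) (ext0 a) T ≤ n - k := fun a =>
    (sum_MM_ext0 hr a).trans (by omega)
  have hv : ∀ a : {T : Finset (Fin k) // T ≠ ∅} → Fin r,
      2 ^ (n - k) + 1 ≤ val (MF (n - k) (2 ^ k * r) (ext0 a)) ∧
        val (MF (n - k) (2 ^ k * r) (ext0 a)) ∈ vals n := fun a =>
    val_mem hk _ (by rw [sum_MF (ext0_empty a) (hs a)]; omega)
  have hinj : Function.Injective g := by
    intro a b h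
    have h1 := (hv a).1
    have h2 := (hv b).1
    have hp : 0 < 2 ^ (n - k) := by positivity
    have h3 : val (MF (n - k) (2 ^ k * r) (ext0 a)) =
        val (MF (n - k) (2 ^ k * r) (ext0 b)) := by
      simp only [g] at h
      omega
    apply ext0_inj
    exact eq_of_uu (ext0_empty a) (ext0_empty b) (uu_of_val (ext0_empty a) (ext0_empty b)
      (hs a) (hs b) (sum_ext0 hr a) (sum_ext0 hr b) h3)
  have hc : (Set.range g).ncard = r ^ (2 ^ k - 1) := by
    rw [← Set.image_univ, Set.ncard_image_of_injective _ hinj, Set.ncard_univ,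
      Nat.card_eq_fintype_card, Fintype.card_fun, card_ne, Fintype.card_fin]
  rw [← hc]
  unfold above
  apply Set.ncard_le_ncard _ ((S_finite n).subset (Set.sep_subset _ _))
  rintro _ ⟨a, rfl⟩
  have h1 := hv a
  refine ⟨mem_S_iff.2 ?_, ?_⟩
  · have h2 : g a + 1 = val (MF (n - k) (2 ^ k * r) (ext0 a)) :=
      Nat.sub_add_cancel (le_trans (Nat.le_add_left 1 _) h1.1)
    rw [h2]
    exact h1.2
  · have h2 : 2 ^ (n - k) ≤ g a := Nat.le_sub_one_of_lt (Nat.lt_of_succ_le h1.1)
    exact_mod_cast h2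

end types

end Pool.Agent.Helper52.CT
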